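import Mathlib
import Pool.Agent.Helper18.SG.Goals

/-!
# SG packet S2 (MP_d3128a_ag)

If `∑ c_d x^i y^j` vanishes to order `μ` at `(t ^ b - e u, t)` then its pull back vanishes to order
`μ` at `T = U = 0`.
-/

set_option autoImplicit false

namespace Pool.Agent.Helper75.SG

open Finset Pool.Agent.Lead.Sh Pool.Agent.Helper18.SG

/-- vanishing to order `k` at the origin -/
def Van (k : ℕ) (f : MvPolynomial (Fin 2) ℂ) : Prop :=
  ∀ m : Fin 2 →₀ ℕ, m.degree < k → MvPolynomial.coeff m f = 0

theorem van_zero (f : MvPolynomial (Fin 2) ℂ) : Van 0 f := fun _ hm => absurd hm (Nat.not_lt_zero _)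

theorem van_mul {a b : ℕ} {f g : MvPolynomial (Fin 2) ℂ} (hf : Van a f) (hg : Van b g) :
    Van (a + b) (f * g) := by
  intro m hm
  rw [MvPolynomial.coeff_mul]
  refine Finset.sum_eq_zero fun x hx => ?_
  have h := Finset.HasAntidiagonal.mem_antidiagonal.1 hx
  have h2 : x.1.degree + x.2.degree = m.degree := by rw [← h, map_add]
  rcases lt_or_ge x.1.degree a with h3 | h3
  · rw [hf _ h3, zero_mul]
  · rw [hg _ (by omega), mul_zero]

theorem van_one {f : MvPolynomial (Fin 2) ℂ} (hf : MvPolynomial.constantCoeff f = 0) : Van 1 f := by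
  intro m hm
  have h : m = 0 := by
    rw [← Finsupp.degree_eq_zero_iff]
    omega
  rw [h]
  exact hf

theorem van_pow {f : MvPolynomial (Fin 2) ℂ} (hf : Van 1 f) (k : ℕ) : Van k (f ^ k) := by
  induction k with
  | zero => exact van_zero _
  | succ k ih => rw [pow_succ]; exact van_mul ih hf

theorem van_mono {a b : ℕ} (h : a ≤ b) {f : MvPolynomial (Fin 2) ℂ} (hf : Van b f) : Van a f :=
  fun m hm => hf m (lt_of_lt_of_le hm h)

/-- the binomial expansion over a big range -/
theorem expand (x p : MvPolynomial (Fin 2) ℂ) (n N : ℕ) (h : n ≤ N) :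
    (x + p) ^ n = ∑ i ∈ range (N + 1), (n.choose i : MvPolynomial (Fin 2) ℂ) * x ^ (n - i) * p ^ i := by
  rw [add_comm x p, add_pow]
  rw [← Finset.sum_subset (s₁ := range (n + 1)) (s₂ := range (N + 1))
    (Finset.range_subset_range.2 (by omega))]
  · refine Finset.sum_congr rfl fun i hi => ?_
    ring
  · intro i _ hi
    have : n < i := by
      rw [Finset.mem_range] at hi
      omega
    rw [Nat.choose_eq_zero_of_lt this]
    simp

theorem goalS2 : GoalS2 := by
  intro b μ t u e D c hv o ho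
  set p : MvPolynomial (Fin 2) ℂ := (MvPolynomial.C t + MvPolynomial.X 0) ^ b -
    MvPolynomial.C (t ^ b) - MvPolynomial.C e * MvPolynomial.X 1 with hp
  have hx : (MvPolynomial.C t + MvPolynomial.X 0) ^ b -
      MvPolynomial.C e * (MvPolynomial.C u + MvPolynomial.X 1) =
      MvPolynomial.C (t ^ b - e * u) + p := by
    rw [hp, map_sub, map_mul]
    ring
  have hp1 : Van 1 p := by
    apply van_one
    rw [hp]
    simp
  have hq1 : Van 1 (MvPolynomial.X 0 : MvPolynomial (Fin 2) ℂ) := by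
    apply van_one
    simp
  obtain ⟨N, hN⟩ : ∃ N : ℕ, ∀ d ∈ D, d.1 ≤ N ∧ d.2 ≤ N := by
    refine ⟨∑ d ∈ D, (d.1 + d.2), fun d hd => ?_⟩
    have := Finset.single_le_sum (f := fun d : ℕ × ℕ => d.1 + d.2) (fun i _ => Nat.zero_le _) hd
    constructor <;> omega
  have key : (∑ d ∈ D, MvPolynomial.C (c d) *
      (((MvPolynomial.C t + MvPolynomial.X 0) ^ b -
        MvPolynomial.C e * (MvPolynomial.C u + MvPolynomial.X 1)) ^ d.1 *
        (MvPolynomial.C t + MvPolynomial.X 0) ^ d.2) : MvPolynomial (Fin 2) ℂ) =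
      ∑ i ∈ range (N + 1), ∑ j ∈ range (N + 1),
        MvPolynomial.C (∑ d ∈ D, c d * E (i, j) d (t ^ b - e * u) t) * (p ^ i * MvPolynomial.X 0 ^ j) := by
    have h1 : ∀ d ∈ D, (MvPolynomial.C (c d) *
      (((MvPolynomial.C t + MvPolynomial.X 0) ^ b -
        MvPolynomial.C e * (MvPolynomial.C u + MvPolynomial.X 1)) ^ d.1 *
        (MvPolynomial.C t + MvPolynomial.X 0) ^ d.2) : MvPolynomial (Fin 2) ℂ) =
        ∑ i ∈ range (N + 1), ∑ j ∈ range (N + 1),
          MvPolynomial.C (c d * E (i, j) d (t ^ b - e * u) t) * (p ^ i * MvPolynomial.X 0 ^ j) := by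
      intro d hd
      obtain ⟨hd1, hd2⟩ := hN d hd
      rw [hx, expand _ p d.1 N hd1, expand _ (MvPolynomial.X 0) d.2 N hd2, Finset.sum_mul_sum,
        Finset.mul_sum]
      refine Finset.sum_congr rfl fun i _ => ?_
      rw [Finset.mul_sum]
      refine Finset.sum_congr rfl fun j _ => ?_
      simp only [E, map_mul, map_pow, map_natCast]
      ring
    rw [Finset.sum_congr rfl h1, Finset.sum_comm]
    refine Finset.sum_congr rfl fun i _ => ?_
    rw [Finset.sum_comm]
    refine Finset.sum_congr rfl fun j _ => ?_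
    rw [map_sum, Finset.sum_mul]
  rw [key, MvPolynomial.coeff_sum]
  refine Finset.sum_eq_zero fun i _ => ?_
  rw [MvPolynomial.coeff_sum]
  refine Finset.sum_eq_zero fun j _ => ?_
  rw [MvPolynomial.coeff_C_mul]
  rcases lt_or_ge (i + j) μ with h | h
  · rw [hv (i, j) h, zero_mul]
  · have h2 : Van (i + j) (p ^ i * MvPolynomial.X 0 ^ j) := van_mul (van_pow hp1 i) (van_pow hq1 j)
    rw [van_mono h h2 (ex o) ?_, mul_zero]
    have : (ex o).degree = o.1 + o.2 := by
      rw [ex, map_add, Finsupp.degree_single, Finsupp.degree_single]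
    omega

end Pool.Agent.Helper75.SG
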